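import Mathlib
import Pool.Agent.H560.SQ.Stm
import Pool.Agent.H985.FC.WinF

/-!
# The Möbius function around squares, `q` even: the product formula in a window (task WINI)

Adapted from the file WinF of helper985.
-/

set_option autoImplicit false
set_option linter.unusedSectionVars false

namespace Pool.Agent.H740.SQ

open Polynomial
open Pool.Agent.H985.Chow (mob MD Wl Wr lc)
open Pool.Agent.H985.Chow.Win
open Pool.Agent.H985.KP (sg PA)
open Pool.Agent.H985.FC.WF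
open Pool.Agent.H524 (AC)
open Pool.Agent.H560.SQ (S_keyI S_addI S_winI phi)

variable {K : Type} [Field K] [Fintype K] [CharP K 2]

lemma sg_trace (P : K[X]) [hP : Fact (Irreducible P)] (z : AdjoinRoot P) :
    sg (Algebra.trace K (AdjoinRoot P) z) = sg z := by
  have h : ((sg (Algebra.trace K (AdjoinRoot P) z) : ℝ) : ℂ) = ((sg z : ℝ) : ℂ) := by
    rw [sg_eq, ← psiP_apply, psiP_sg]
  exact_mod_cast h

lemma sg_sq (x : K) : sg x * sg x = 1 := by
  rcases sg_pm x with h | h <;> rw [h] <;> norm_num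

lemma key_sgI (hkey : S_keyI) {d : ℕ} {c : K} {a₁ a₂ e h : K[X]} (hc : c ≠ 0) (he : e.Monic)
    (hh : h.Monic) (heh : IsCoprime e h) (hs : Squarefree h)
    (m1 : a₁.Monic) (d1 : a₁.natDegree = d) (m2 : a₂.Monic) (d2 : a₂.natDegree = d)
    (hd : (e * h).natDegree < d)
    (c1 : IsCoprime a₁ (e * h)) (c2 : IsCoprime a₂ (e * h)) (h5 : e ^ 5 ∣ a₂ - a₁)
    (hd' : (a₂ - a₁).natDegree ≤ (e * h).natDegree)
    {I : Finset K[X]} (hI : ∀ P ∈ I, P.Monic ∧ Irreducible P) (hp : ∏ P ∈ I, P = h) :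
    ((mob (a₁ ^ 2 + X * (C c * (e * h)) ^ 2) : ℤ) : ℝ) *
      ((mob (a₂ ^ 2 + X * (C c * (e * h)) ^ 2) : ℤ) : ℝ) =
      (∏ P ∈ I, TS P a₁ (C c * (e * h))) * (∏ P ∈ I, TS P a₂ (C c * (e * h))) *
        (sg (phi c (e * h) a₁) * sg (phi c (e * h) a₂)) := by
  classical
  have inst : ∀ i : {P // P ∈ I}, Fact (Irreducible i.1) := fun i => ⟨(hI i.1 i.2).2⟩
  obtain ⟨w, hw, hm⟩ := hkey K d c a₁ a₂ e h hc he hh heh hs m1 d1 m2 d2 hd c1 c2 h5 hd'
  have hsum : ∀ A : K[X], ∑ ρ ∈ (h.aroots (AC K)).toFinset, Wr A (C c * (e * h)) ρ =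
      algebraMap K (AC K) (∑ i : {P // P ∈ I}, Algebra.trace K (AdjoinRoot i.1)
        (Tl i.1 A (C c * (e * h)))) := by
    intro A
    rw [roots_union hh.ne_zero hI hp, map_sum, ← Finset.sum_coe_sort I]
    exact Finset.sum_congr rfl fun i _ => (sum_Wr i.1 A _).symm
  have hw' : w = (∑ i : {P // P ∈ I}, Algebra.trace K (AdjoinRoot i.1)
        (Tl i.1 a₁ (C c * (e * h)))) + ∑ i : {P // P ∈ I}, Algebra.trace K (AdjoinRoot i.1)
        (Tl i.1 a₂ (C c * (e * h))) := by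
    apply (algebraMap K (AC K)).injective
    rw [hw, Finset.sum_add_distrib, hsum, hsum, map_add]
  have hts : ∀ A : K[X], sg (∑ i : {P // P ∈ I}, Algebra.trace K (AdjoinRoot i.1)
        (Tl i.1 A (C c * (e * h)))) = ∏ P ∈ I, TS P A (C c * (e * h)) := by
    intro A
    rw [sg_sum, ← Finset.prod_coe_sort I]
    refine Finset.prod_congr rfl fun i _ => ?_
    rw [sg_trace, TS_eq]
  have hps : ((if ∃ x : K, x ^ 2 + x = w + (phi c (e * h) a₁ + phi c (e * h) a₂) then (1 : ℤ)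
      else -1 : ℤ) : ℝ) = sg (w + (phi c (e * h) a₁ + phi c (e * h) a₂)) := by
    unfold sg
    split_ifs <;> simp
  rw [← Int.cast_mul, hm, hps, sg_add, sg_add, hw', sg_add, hts, hts]

/-- one Möbius function along the window -/
lemma oneI (hkey : S_keyI) {d L : ℕ} {c : K} {α e h D : K[X]} (hc : c ≠ 0) (he : e.Monic)
    (hh : h.Monic) (heh : IsCoprime e h) (hs : Squarefree h) (h5 : e ^ 5 ∣ D)
    (hm : ∀ w : K[X], w.degree < (L : WithBot ℕ) →
      (α + D * w).Monic ∧ (α + D * w).natDegree = d)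
    (hd : (e * h).natDegree < d)
    (hd' : ∀ w : K[X], w.degree < (L : WithBot ℕ) → (D * w).natDegree ≤ (e * h).natDegree)
    {I : Finset K[X]} (hI : ∀ P ∈ I, P.Monic ∧ Irreducible P) (hp : ∏ P ∈ I, P = h) :
    ∃ η : ℝ, |η| ≤ 1 ∧ ∀ w : K[X], w.degree < (L : WithBot ℕ) →
      ((mob ((α + D * w) ^ 2 + X * (C c * (e * h)) ^ 2) : ℤ) : ℝ) =
        η * ((sg (phi c (e * h) (α + D * w)) * sg (phi c (e * h) α)) *
          ∏ P ∈ I, LF P (α + D * w) (C c * (e * h))) := by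
  classical
  have hbad : ∀ w : K[X], ¬ IsCoprime (α + D * w) h →
      ((mob ((α + D * w) ^ 2 + X * (C c * (e * h)) ^ 2) : ℤ) : ℝ) = 0 ∧
      ∏ P ∈ I, LF P (α + D * w) (C c * (e * h)) = 0 := by
    intro w hw
    constructor
    · rw [mob_zero fun h2 => hw (cop_b_right h2)]
      simp
    · obtain ⟨i, hi⟩ := not_cop hI hp hw
      refine Finset.prod_eq_zero i.2 ?_
      unfold LF
      rw [if_pos hi]
  have hsh : ∀ w : K[X], IsCoprime (α + D * w) e ↔ IsCoprime α e := by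
    intro w
    obtain ⟨t, rfl⟩ := h5
    have e1 : α + e ^ 5 * t * w = α + e * (e ^ 4 * t * w) := by ring
    rw [e1]
    exact IsCoprime.add_mul_left_left_iff
  by_cases hA : IsCoprime α e
  swap
  · refine ⟨0, by norm_num, fun w hw => ?_⟩
    rw [zero_mul, mob_zero fun h2 => hA ((hsh w).1 (cop_b_left h2))]
    simp
  by_cases hg : ∃ w₀ : K[X], w₀.degree < (L : WithBot ℕ) ∧ IsCoprime (α + D * w₀) h
  swap
  · refine ⟨0, by norm_num, fun w hw => ?_⟩
    rw [zero_mul]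
    exact (hbad w fun h1 => hg ⟨w, hw, h1⟩).1
  obtain ⟨w₀, hw₀, hc₀⟩ := hg
  have key : ∀ w : K[X], w.degree < (L : WithBot ℕ) → IsCoprime (α + D * w) h →
      ((mob ((α + D * w₀) ^ 2 + X * (C c * (e * h)) ^ 2) : ℤ) : ℝ) *
        ((mob ((α + D * w) ^ 2 + X * (C c * (e * h)) ^ 2) : ℤ) : ℝ) =
      (∏ P ∈ I, TS P (α + D * w₀) (C c * (e * h))) *
        (∏ P ∈ I, TS P (α + D * w) (C c * (e * h))) *
        (sg (phi c (e * h) (α + D * w₀)) * sg (phi c (e * h) (α + D * w))) := by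
    intro w hw hcw
    have e1 : (α + D * w) - (α + D * w₀) = D * (w - w₀) := by ring
    have hdw : (w - w₀).degree < (L : WithBot ℕ) :=
      (degree_sub_le w w₀).trans_lt (max_lt hw hw₀)
    refine key_sgI hkey hc he hh heh hs (hm w₀ hw₀).1 (hm w₀ hw₀).2 (hm w hw).1 (hm w hw).2 hd
      (((hsh w₀).2 hA).mul_right hc₀) (((hsh w).2 hA).mul_right hcw) ?_ ?_ hI hp
    · rw [e1]
      exact h5.mul_right _
    · rw [e1]
      exact hd' _ hdw
  have P0 := key w₀ hw₀ hc₀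
  have hXX : ∀ A : K[X], (∏ P ∈ I, TS P A (C c * (e * h))) *
      ∏ P ∈ I, TS P A (C c * (e * h)) = 1 := by
    intro A
    rw [← Finset.prod_mul_distrib]
    exact Finset.prod_eq_one fun P _ => TS_sq P A _
  rw [hXX, sg_sq, mul_one] at P0
  set M0 : ℝ := ((mob ((α + D * w₀) ^ 2 + X * (C c * (e * h)) ^ 2) : ℤ) : ℝ) with hM0
  set X0 : ℝ := ∏ P ∈ I, TS P (α + D * w₀) (C c * (e * h)) with hX0
  set S0 : ℝ := sg (phi c (e * h) (α + D * w₀)) with hS0
  set SZ : ℝ := sg (phi c (e * h) α) with hSZ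
  have Q0 : X0 * X0 = 1 := hXX _
  have R0 : S0 * S0 = 1 := sg_sq _
  have RZ : SZ * SZ = 1 := sg_sq _
  have abs1 : ∀ z : ℝ, z * z = 1 → |z| = 1 := by
    intro z hz
    have : |z| * |z| = 1 := by rw [← abs_mul, hz, abs_one]
    nlinarith [abs_nonneg z]
  refine ⟨M0 * X0 * (S0 * SZ), ?_, fun w hw => ?_⟩
  · rw [abs_mul, abs_mul, abs_mul, abs1 _ P0, abs1 _ Q0, abs1 _ R0, abs1 _ RZ]; norm_num
  by_cases hcw : IsCoprime (α + D * w) h
  · have h1 := key w hw hcw
    have h2 : ∏ P ∈ I, LF P (α + D * w) (C c * (e * h)) =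
        ∏ P ∈ I, TS P (α + D * w) (C c * (e * h)) := by
      refine Finset.prod_congr rfl fun P hP => ?_
      unfold LF
      rw [if_neg]
      intro h3
      have hPh : P ∣ h := by rw [← hp]; exact Finset.dvd_prod_of_mem _ hP
      exact (hI P hP).2.not_isUnit (hcw.isUnit_of_dvd' h3 hPh)
    rw [h2]
    set M1 : ℝ := ((mob ((α + D * w) ^ 2 + X * (C c * (e * h)) ^ 2) : ℤ) : ℝ) with hM1
    set X1 : ℝ := ∏ P ∈ I, TS P (α + D * w) (C c * (e * h)) with hX1
    set S1 : ℝ := sg (phi c (e * h) (α + D * w)) with hS1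
    linear_combination M0 * h1 - M1 * P0 - M0 * X0 * S0 * S1 * X1 * RZ
  · obtain ⟨h1, h2⟩ := hbad w hcw
    rw [h1, h2, mul_zero, mul_zero]

lemma degE {L : ℕ} {E u : K[X]} {g : K[X]} (hL : 1 ≤ L) (hd : E.natDegree + (L - 1) ≤ g.natDegree)
    (hu : u.degree < (L : WithBot ℕ)) : (E * u).natDegree ≤ g.natDegree :=
  (natDegree_mul_le.trans (Nat.add_le_add_left (nd_lt hL hu) _)).trans hd

/-- the phase at infinity as a function of the variable of the window -/
noncomputable def chi0 (c : K) (g Z E u : K[X]) : ℝ := sg (phi c g (Z + E * u)) * sg (phi c g Z)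

lemma chi0_add (ha : S_addI) {d L : ℕ} {c : K} {g Z E : K[X]} (hc : c ≠ 0) (hg : g.Monic)
    (hZ : Z.Monic) (hZd : Z.natDegree = d) (hgd : g.natDegree < d) (hL : 1 ≤ L)
    (hd : E.natDegree + (L - 1) ≤ g.natDegree) {u v : K[X]}
    (hu : u.degree < (L : WithBot ℕ)) (hv : v.degree < (L : WithBot ℕ)) :
    chi0 c g Z E (u + v) = chi0 c g Z E u * chi0 c g Z E v := by
  have h1 := ha K d c g Z (E * u) (E * v) hc hg hZ hZd hgd (degE hL hd hu) (degE hL hd hv)
  have e1 : Z + E * (u + v) = Z + E * u + E * v := by ring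
  have h2 := sg_sq (phi c g Z)
  unfold chi0
  rw [e1, h1]
  linear_combination (-(sg (phi c g (Z + E * u)) * sg (phi c g (Z + E * v)))) * h2

/-- **Task WINI.** -/
theorem winI (hk : S_keyI) (ha : S_addI) : S_winI := by
  intro K _ _ _ d L c Z e h E hc he hh heh hs hE0 hE5 hEh hL hZ hZd hd hdL
  classical
  set b : K[X] := C c * (e * h) with hb
  have hgm : (e * h).Monic := he.mul hh
  have hXL : (X ^ L : K[X]).Monic := monic_X_pow L
  have hmod : ∀ u : K[X], (u %ₘ (X ^ L : K[X])).degree < (L : WithBot ℕ) := by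
    intro u
    have h1 := degree_modByMonic_lt u hXL
    rwa [degree_X_pow] at h1
  let χ : AddChar K[X] ℝ :=
    { toFun := fun u => chi0 c (e * h) Z E (u %ₘ (X ^ L : K[X]))
      map_zero_eq_one' := by
        rw [zero_modByMonic]
        unfold chi0
        rw [mul_zero, add_zero]
        exact sg_sq _
      map_add_eq_mul' := fun u v => by
        rw [add_modByMonic]
        exact chi0_add ha hc hgm hZ hZd hd hL hdL (hmod u) (hmod v) }
  have hχ : ∀ u : K[X], χ u = chi0 c (e * h) Z E (u %ₘ (X ^ L : K[X])) := fun u => rfl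
  obtain ⟨I, hI, hp⟩ := facs hh hs
  have hI' : ∀ P ∈ I, P.Monic ∧ Irreducible P := fun P hP =>
    ⟨((hI P).1 hP).1, ((hI P).1 hP).2.1⟩
  have hm : ∀ w : K[X], w.degree < (L : WithBot ℕ) →
      (Z + E * w).Monic ∧ (Z + E * w).natDegree = d := by
    intro w hw
    exact win_mon hZ hZd (lt_of_le_of_lt (degE hL hdL hw) hd)
  obtain ⟨η, hη1, hη2⟩ := oneI hk hc he hh heh hs hE5 hm hd (fun w hw => degE hL hdL hw) hI' hp
  refine ⟨η, χ, hη1, ?_, fun u hu => ?_⟩
  · intro u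
    rw [hχ]
    unfold chi0
    rcases sg_pm (phi c (e * h) (Z + E * (u %ₘ (X ^ L : K[X])))) with h1 | h1 <;>
      rcases sg_pm (phi c (e * h) Z) with h2 | h2 <;> rw [h1, h2] <;> norm_num
  have hPA : PA h = ↑I := by
    ext P
    rw [Finset.mem_coe, hI]
    rfl
  have e0 : ∏ᶠ P ∈ PA h, Pool.Agent.H985.FC.GP b 1 P (Z + E * u) =
      ∏ P ∈ I, Pool.Agent.H985.FC.GP b 1 P (Z + E * u) := by
    rw [hPA]
    exact finprod_mem_coe_finset _ _
  have e3 : ∏ P ∈ I, Pool.Agent.H985.FC.GP b 1 P (Z + E * u) = ∏ P ∈ I, LF P (Z + E * u) b := by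
    refine Finset.prod_congr rfl fun P hP => ?_
    obtain ⟨_, hPi, hPh⟩ := (hI P).1 hP
    have h1 := LF_GP (g := 1) (P := P) (A := Z + E * u) (β := b) hPi
      (fun h1 => hPi.not_isUnit (isUnit_of_dvd_one h1)) ((hPh.mul_left _).mul_left _)
    rw [one_mul, one_mul] at h1
    exact h1.symm
  have e4 : u %ₘ (X ^ L : K[X]) = u := by
    rw [modByMonic_eq_self_iff hXL, degree_X_pow]
    exact hu
  rw [e0, e3, hχ, e4]
  unfold chi0
  exact hη2 u hu

end Pool.Agent.H740.SQ
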